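import Pool.Agent.Helper65.EV.St

/-!
# EV module TA: the level is large only with small probability
-/

set_option autoImplicit false

open MeasureTheory ProbabilityTheory Set Filter
open scoped ENNReal Topology

namespace Pool.Agent.Helper71.EV

open Pool.Agent.Helper65.EV Pool.Agent.Helper84.Eve

theorem hTA (h1 : WM) (h2 : hGR) (h3 : hWG) : hTA := by
  intro Λ hΛ hΛ1 n m h s a b hh hs hsb hf
  have hsum : ∑ κ ∈ (Finset.range n).powerset, wt Λ n h κ ≤ 1 := sum_wt_le_one n hh hf
  have hg := h2 (wt Λ n h) n hsum (fun a => ENNReal.ofReal (tl s a)) (ENNReal.ofReal h * AA Λ s)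
    (fun a => h3 Λ hΛ hΛ1 n h s a hh hs.le hf) m a
  have hm := h1.markov (wt Λ n h) n m {l | b < posl l a} (ENNReal.ofReal s)
    (fun l => ENNReal.ofReal (tl s (posl l a))) (fun l _ hl => by
      have hl' : b < posl l a := hl
      refine ENNReal.ofReal_le_ofReal ?_
      unfold tl
      refine le_min ?_ le_rfl
      refine hsb.trans (Real.log_le_log (by positivity) ?_)
      have : (b : ℝ) ≤ (posl l a : ℝ) := by exact_mod_cast hl'.le
      linarith)
  have hs0 : ENNReal.ofReal s ≠ 0 := (ENNReal.ofReal_pos.2 hs).ne'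
  rw [ENNReal.le_div_iff_mul_le (Or.inl hs0) (Or.inl ENNReal.ofReal_ne_top), mul_comm]
  refine hm.trans (hg.trans ?_)
  refine add_le_add ?_ le_rfl
  exact ENNReal.ofReal_le_ofReal (min_le_left _ _)

end Pool.Agent.Helper71.EV
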